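import Pool.Agent.X203.OBS

namespace Pool.Agent.Results.MP_a21db2_an.SuperDeltaNearDenting

open Metric Filter Topology

section Defs

variable {X : Type*} [NormedAddCommGroup X] [NormedSpace ℝ X]

/-- The slice `S(B_X, f, α)` of the closed unit ball. -/
def slice (f : X →L[ℝ] ℝ) (α : ℝ) : Set X := {y : X | y ∈ closedBall (0 : X) 1 ∧ ‖f‖ - α < f y}

/-- `x` is a denting point of the closed unit ball. -/
def IsDentingPoint (x : X) : Prop :=
  x ∈ closedBall (0 : X) 1 ∧ ∀ ε : ℝ, 0 < ε → ∃ (f : X →L[ℝ] ℝ) (α : ℝ), f ≠ 0 ∧ 0 < α ∧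
    x ∈ slice f α ∧ Metric.diam (slice f α) < ε

/-- `x` is a super Delta-point. -/
def IsSuperDeltaPoint (x : X) : Prop :=
  ‖x‖ = 1 ∧ ∀ W : Set (WeakSpace ℝ X), IsOpen W → toWeakSpace ℝ X x ∈ W →
    IsLUB {t : ℝ | ∃ y ∈ closedBall (0 : X) 1, toWeakSpace ℝ X y ∈ W ∧ t = ‖x - y‖} 2

end Defs

/-! ### The predual: finitely supported sequences with a new norm -/

/-- finitely supported sequences -/
abbrev E := ℕ →₀ ℝ

/-- the functional given by a sequence -/
noncomputable def lc (v : ℕ → ℝ) : E →ₗ[ℝ] ℝ := Finsupp.linearCombination ℝ v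

theorem lc_single (v : ℕ → ℝ) (i : ℕ) (r : ℝ) : lc v (Finsupp.single i r) = r * v i := by
  simp [lc]

theorem lc_add (v w : ℕ → ℝ) (h : E) : lc (v + w) h = lc v h + lc w h := by
  simp [lc, Finsupp.linearCombination_apply, Finsupp.sum, mul_add, Finset.sum_add_distrib]

theorem lc_smul (c : ℝ) (v : ℕ → ℝ) (h : E) : lc (c • v) h = c * lc v h := by
  simp only [lc, Finsupp.linearCombination_apply, Finsupp.sum, Pi.smul_apply, smul_eq_mul,
    Finset.mul_sum]
  exact Finset.sum_congr rfl fun i _ => by ring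

theorem abs_lc_le (v : ℕ → ℝ) {C : ℝ} (hv : ∀ i, |v i| ≤ C) (h : E) :
    |lc v h| ≤ C * ∑ i ∈ h.support, |h i| := by
  simp only [lc, Finsupp.linearCombination_apply, Finsupp.sum, smul_eq_mul]
  refine (Finset.abs_sum_le_sum_abs _ _).trans ?_
  rw [Finset.mul_sum]
  apply Finset.sum_le_sum
  intro i _
  rw [abs_mul, mul_comm]
  gcongr
  exact hv i

/-- the distinguished sequences -/
def vx : ℕ → ℝ := fun i => if i = 0 then 1 else 0
def vp (n : ℕ) : ℕ → ℝ := fun i => if i = 2 * n + 1 then 1 else 0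
def vq (k : ℕ) : ℕ → ℝ := fun i => if i = 2 * k + 2 then 1 else 0

/-- the norming set of sequences -/
def V : Set (ℕ → ℝ) :=
  {v | v = vx ∨ (∃ n, v = vx - (2 : ℝ) • vp n) ∨ (∃ k : ℕ, v = vx + (1 / ((k : ℝ) + 1)) • vq k) ∨
    (∀ i, |v i| ≤ 1 / 4)}

theorem V_le {v : ℕ → ℝ} (hv : v ∈ V) (i : ℕ) : |v i| ≤ 2 := by
  rcases hv with rfl | ⟨n, rfl⟩ | ⟨k, rfl⟩ | h
  · unfold vx; split_ifs <;> norm_num
  · simp only [Pi.sub_apply, Pi.smul_apply, smul_eq_mul, vx, vp]
    split_ifs with h1 h2 h2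
    · omega
    · norm_num
    · norm_num
    · norm_num
  · have hk : (0 : ℝ) < (k : ℝ) + 1 := by positivity
    have hk1 : 1 / ((k : ℝ) + 1) ≤ 1 := by
      rw [div_le_one hk]; linarith [Nat.cast_nonneg (α := ℝ) k]
    have hk0 : 0 < 1 / ((k : ℝ) + 1) := by positivity
    simp only [Pi.add_apply, Pi.smul_apply, smul_eq_mul, vx, vq]
    rw [abs_le]
    split_ifs with h1 h2 h2
    · omega
    · constructor <;> linarith
    · constructor <;> linarith
    · constructor <;> norm_num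
  · exact (h i).trans (by norm_num)

/-- the type of the predual -/
def Y := E

noncomputable instance : AddCommGroup Y := inferInstanceAs (AddCommGroup E)
noncomputable instance : Module ℝ Y := inferInstanceAs (Module ℝ E)

/-- the identification -/
noncomputable def toY : E ≃ₗ[ℝ] Y := LinearEquiv.refl ℝ E

/-- functionals on `Y` -/
noncomputable def fl (v : ℕ → ℝ) : Y →ₗ[ℝ] ℝ := lc v

noncomputable instance : Norm Y := ⟨fun y => ⨆ v : V, |fl v y|⟩

theorem norm_def (y : Y) : ‖y‖ = ⨆ v : V, |fl v y| := rfl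

theorem bdd (y : Y) : BddAbove (Set.range fun v : V => |fl v y|) := by
  let h : E := y
  refine ⟨2 * ∑ i ∈ h.support, |h i|, ?_⟩
  rintro _ ⟨v, rfl⟩
  exact abs_lc_le v.1 (V_le v.2) h

theorem fl_le {v : ℕ → ℝ} (hv : v ∈ V) (y : Y) : |fl v y| ≤ ‖y‖ :=
  le_ciSup (bdd y) ⟨v, hv⟩

theorem vx_mem : vx ∈ V := Or.inl rfl

instance : Nonempty V := ⟨⟨vx, vx_mem⟩⟩

theorem norm_le_iff {y : Y} {c : ℝ} : ‖y‖ ≤ c ↔ ∀ v ∈ V, |fl v y| ≤ c := by
  rw [norm_def, ciSup_le_iff (bdd y)]
  exact ⟨fun h v hv => h ⟨v, hv⟩, fun h v => h v.1 v.2⟩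

theorem core : NormedSpace.Core ℝ Y where
  norm_nonneg y := (abs_nonneg _).trans (fl_le vx_mem y)
  norm_smul c y := by
    rw [norm_def, norm_def, Real.norm_eq_abs, Real.mul_iSup_of_nonneg (abs_nonneg c)]
    congr 1
    ext v
    rw [map_smul, smul_eq_mul, abs_mul]
  norm_triangle x y := by
    rw [norm_le_iff]
    intro v hv
    rw [map_add]
    exact (abs_add_le _ _).trans (add_le_add (fl_le hv x) (fl_le hv y))
  norm_eq_zero_iff y := by
    constructor
    · intro h
      let z : E := y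
      show z = 0
      ext i
      have hv : (1 / 4 : ℝ) • (fun j => if j = i then (1 : ℝ) else 0) ∈ V := by
        right; right; right
        intro j
        simp only [Pi.smul_apply, smul_eq_mul]
        split_ifs <;> norm_num
      have h1 := fl_le hv y
      rw [h] at h1
      have h2 : fl ((1 / 4 : ℝ) • (fun j => if j = i then (1 : ℝ) else 0)) y = 0 :=
        abs_nonpos_iff.1 h1
      have h3 : lc ((1 / 4 : ℝ) • (fun j => if j = i then (1 : ℝ) else 0)) z = 0 := h2
      rw [lc_smul] at h3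
      have h4 : lc (fun j => if j = i then (1 : ℝ) else 0) z = z i := by
        simp only [lc, Finsupp.linearCombination_apply, Finsupp.sum, smul_eq_mul, mul_ite, mul_one,
          mul_zero, Finset.sum_ite_eq', Finsupp.mem_support_iff]
        split_ifs with h5
        · rfl
        · push Not at h5
          exact h5.symm
      rw [h4] at h3
      simp only [Finsupp.coe_zero, Pi.zero_apply]
      linarith
    · rintro rfl
      apply le_antisymm
      · rw [norm_le_iff]
        intro v _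
        rw [map_zero, abs_zero]
      · exact (abs_nonneg _).trans (fl_le vx_mem 0)

noncomputable instance : NormedAddCommGroup Y := NormedAddCommGroup.ofCore core
noncomputable instance : NormedSpace ℝ Y := NormedSpace.ofCore core

theorem norm_def' (y : Y) : ‖y‖ = ⨆ v : V, |fl v y| := rfl

/-- unit vectors -/
noncomputable def e (i : ℕ) : Y := (Finsupp.single i (1 : ℝ) : E)

theorem fl_e (v : ℕ → ℝ) (i : ℕ) : fl v (e i) = v i := by
  have := lc_single v i 1
  rw [one_mul] at this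
  exact this

theorem fl_add (v w : ℕ → ℝ) (y : Y) : fl (v + w) y = fl v y + fl w y := lc_add v w y

theorem fl_smul (c : ℝ) (v : ℕ → ℝ) (y : Y) : fl (c • v) y = c * fl v y := lc_smul c v y

/-- norms of combinations of two unit vectors -/
theorem fl_cases {v : ℕ → ℝ} (hv : v ∈ V) (a b : ℝ) (i j : ℕ) :
    fl v (a • e i + b • e j) = a * v i + b * v j := by
  rw [map_add, map_smul, map_smul, fl_e, fl_e, smul_eq_mul, smul_eq_mul]

/-! ### The dual space -/

/-- The Banach space of the example. -/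
abbrev X := Y →L[ℝ] ℝ

/-- functionals in the dual, for bounded sequences that belong to a multiple of `V` -/
noncomputable def F (v : ℕ → ℝ) (C : ℝ) (h : ∀ y, |fl v y| ≤ C * ‖y‖) : X :=
  (fl v).mkContinuous C h

theorem norm_F_le {v : ℕ → ℝ} {C : ℝ} (hC : 0 ≤ C) (h : ∀ y, |fl v y| ≤ C * ‖y‖) :
    ‖F v C h‖ ≤ C := LinearMap.mkContinuous_norm_le _ hC _

theorem one_le {v : ℕ → ℝ} (hv : v ∈ V) (y : Y) : |fl v y| ≤ 1 * ‖y‖ := by
  rw [one_mul]; exact fl_le hv y

/-- the point `x` -/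
noncomputable def px : X := F vx 1 (one_le vx_mem)

theorem vy_mem (n : ℕ) : vx - (2 : ℝ) • vp n ∈ V := Or.inr (Or.inl ⟨n, rfl⟩)
theorem vz_mem (k : ℕ) : vx + (1 / ((k : ℝ) + 1)) • vq k ∈ V := Or.inr (Or.inr (Or.inl ⟨k, rfl⟩))

/-- the points `y_n` -/
noncomputable def py (n : ℕ) : X := F _ 1 (one_le (vy_mem n))

/-- the points `z_k` -/
noncomputable def pz (k : ℕ) : X := F _ 1 (one_le (vz_mem k))

theorem four_le {v : ℕ → ℝ} (hv : ∀ i, |v i| ≤ 1) (y : Y) : |fl v y| ≤ 4 * ‖y‖ := by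
  have hm : (1 / 4 : ℝ) • v ∈ V := by
    right; right; right
    intro i
    simp only [Pi.smul_apply, smul_eq_mul, abs_mul]
    rw [abs_of_pos (by norm_num : (0 : ℝ) < 1 / 4)]
    linarith [hv i]
  have h1 := fl_le hm y
  rw [fl_smul, abs_mul, abs_of_pos (by norm_num : (0 : ℝ) < 1 / 4)] at h1
  linarith

theorem px_apply (y : Y) : px y = fl vx y := rfl
theorem py_apply (n : ℕ) (y : Y) : py n y = fl (vx - (2 : ℝ) • vp n) y := rfl
theorem pz_apply (k : ℕ) (y : Y) : pz k y = fl (vx + (1 / ((k : ℝ) + 1)) • vq k) y := rfl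

theorem norm_px_le : ‖px‖ ≤ 1 := norm_F_le zero_le_one _
theorem norm_py_le (n : ℕ) : ‖py n‖ ≤ 1 := norm_F_le zero_le_one _
theorem norm_pz_le (k : ℕ) : ‖pz k‖ ≤ 1 := norm_F_le zero_le_one _

theorem vp_le (n i : ℕ) : |vp n i| ≤ 1 := by unfold vp; split_ifs <;> norm_num
theorem vq_le (k i : ℕ) : |vq k i| ≤ 1 := by unfold vq; split_ifs <;> norm_num

/-- the coordinate functionals `p_n` -/
noncomputable def pp (n : ℕ) : X := F (vp n) 4 (four_le (vp_le n))

theorem pp_apply (n : ℕ) (y : Y) : pp n y = fl (vp n) y := rfl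

theorem py_eq (n : ℕ) : py n = px - (2 : ℝ) • pp n := by
  ext y
  rw [_root_.sub_apply, _root_.smul_apply, py_apply, px_apply, pp_apply, sub_eq_add_neg, fl_add,
    ← neg_smul, fl_smul, smul_eq_mul]
  ring

/-- norm of `e 0 + e (2n+1)` -/
theorem norm_u_le (n : ℕ) : ‖(1 : ℝ) • e 0 + (1 : ℝ) • e (2 * n + 1)‖ ≤ 1 := by
  rw [norm_le_iff]
  intro v hv
  rw [fl_cases hv]
  rcases hv with rfl | ⟨m, rfl⟩ | ⟨k, rfl⟩ | h
  · simp [vx]
  · simp only [Pi.sub_apply, Pi.smul_apply, smul_eq_mul, vx, vp]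
    rw [if_pos trivial, if_neg (by omega : ¬ (0 = 2 * m + 1)),
      if_neg (by omega : ¬ (2 * n + 1 = 0))]
    split_ifs <;> norm_num
  · simp only [Pi.add_apply, Pi.smul_apply, smul_eq_mul, vx, vq]
    rw [if_pos trivial, if_neg (by omega : ¬ (0 = 2 * k + 2)), if_neg (by omega : ¬ (2 * n + 1 = 0)),
      if_neg (by omega : ¬ (2 * n + 1 = 2 * k + 2))]
    norm_num
  · have h1 := abs_le.1 (h 0)
    have h2 := abs_le.1 (h (2 * n + 1))
    rw [abs_le]
    constructor <;> linarith [h1.1, h1.2, h2.1, h2.2]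

theorem one_le_norm_pp (n : ℕ) : 1 ≤ ‖pp n‖ := by
  have h1 : pp n ((1 : ℝ) • e 0 + (1 : ℝ) • e (2 * n + 1)) = 1 := by
    rw [pp_apply, map_add, map_smul, map_smul, fl_e, fl_e, vp, vp,
      if_neg (by omega : ¬ (0 = 2 * n + 1)), if_pos rfl]
    norm_num
  calc (1 : ℝ) = pp n ((1 : ℝ) • e 0 + (1 : ℝ) • e (2 * n + 1)) := h1.symm
    _ ≤ ‖pp n ((1 : ℝ) • e 0 + (1 : ℝ) • e (2 * n + 1))‖ := le_abs_self _
    _ ≤ ‖pp n‖ * ‖(1 : ℝ) • e 0 + (1 : ℝ) • e (2 * n + 1)‖ := (pp n).le_opNorm _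
    _ ≤ ‖pp n‖ * 1 := by gcongr; exact norm_u_le n
    _ = ‖pp n‖ := mul_one _

theorem norm_px : ‖px‖ = 1 := by
  apply le_antisymm norm_px_le
  have h1 : px ((1 : ℝ) • e 0 + (1 : ℝ) • e (2 * 0 + 1)) = 1 := by
    rw [px_apply, map_add, map_smul, map_smul, fl_e, fl_e, vx, vx, if_pos rfl,
      if_neg (by omega : ¬ (2 * 0 + 1 = 0))]
    norm_num
  calc (1 : ℝ) = px ((1 : ℝ) • e 0 + (1 : ℝ) • e (2 * 0 + 1)) := h1.symm
    _ ≤ ‖px ((1 : ℝ) • e 0 + (1 : ℝ) • e (2 * 0 + 1))‖ := le_abs_self _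
    _ ≤ ‖px‖ * ‖(1 : ℝ) • e 0 + (1 : ℝ) • e (2 * 0 + 1)‖ := px.le_opNorm _
    _ ≤ ‖px‖ * 1 := by gcongr; exact norm_u_le 0
    _ = ‖px‖ := mul_one _

/-- the `p_n` are weakly null -/
theorem pp_weak (G : X →L[ℝ] ℝ) : Tendsto (fun n => G (pp n)) atTop (𝓝 0) := by
  -- absolutely summable
  have hsum : ∀ N, ∑ n ∈ Finset.range N, |G (pp n)| ≤ 4 * ‖G‖ := by
    intro N
    let s : ℕ → ℝ := fun n => if 0 ≤ G (pp n) then 1 else -1
    have hs : ∀ n, s n * G (pp n) = |G (pp n)| := by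
      intro n
      simp only [s]
      split_ifs with h
      · rw [one_mul, abs_of_nonneg h]
      · rw [abs_of_neg (not_le.1 h)]; ring
    let w : ℕ → ℝ := ∑ n ∈ Finset.range N, s n • vp n
    have hw : ∀ i, |w i| ≤ 1 := by
      intro i
      simp only [w, Finset.sum_apply, Pi.smul_apply, smul_eq_mul, vp, mul_ite, mul_one, mul_zero]
      by_cases hi : ∃ m, i = 2 * m + 1
      · obtain ⟨m, rfl⟩ := hi
        have : ∀ n, (if 2 * m + 1 = 2 * n + 1 then s n else 0) = if n = m then s n else 0 := by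
          intro n
          by_cases h : n = m
          · simp [h]
          · rw [if_neg h, if_neg (by omega)]
        simp only [this, Finset.sum_ite_eq']
        split_ifs
        · simp only [s]; split_ifs <;> norm_num
        · norm_num
      · rw [Finset.sum_eq_zero]
        · norm_num
        · intro n _
          rw [if_neg]
          rintro rfl
          exact hi ⟨n, rfl⟩
    have h1 : ∑ n ∈ Finset.range N, s n • pp n = F w 4 (four_le hw) := by
      ext y
      rw [_root_.sum_apply]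
      show ∑ n ∈ Finset.range N, (s n • pp n) y = fl w y
      have h2 : ∀ M, fl (∑ n ∈ Finset.range M, s n • vp n) y =
          ∑ n ∈ Finset.range M, (s n • pp n) y := by
        intro M
        induction M with
        | zero =>
          simp only [Finset.range_zero, Finset.sum_empty]
          have := fl_smul 0 0 y
          simpa using this
        | succ M ih =>
          rw [Finset.sum_range_succ, Finset.sum_range_succ, fl_add, fl_smul, ih]
          rfl
      exact (h2 N).symm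
    calc ∑ n ∈ Finset.range N, |G (pp n)| = G (∑ n ∈ Finset.range N, s n • pp n) := by
          rw [map_sum]
          exact Finset.sum_congr rfl fun n _ => by rw [map_smul, smul_eq_mul, hs]
      _ ≤ ‖G (∑ n ∈ Finset.range N, s n • pp n)‖ := le_abs_self _
      _ ≤ ‖G‖ * ‖∑ n ∈ Finset.range N, s n • pp n‖ := G.le_opNorm _
      _ ≤ ‖G‖ * 4 := by
          gcongr
          rw [h1]
          exact norm_F_le (by norm_num) _
      _ = 4 * ‖G‖ := mul_comm _ _
  have h1 : Summable (fun n => |G (pp n)|) :=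
    summable_of_sum_range_le (fun _ => abs_nonneg _) hsum
  exact (tendsto_zero_iff_abs_tendsto_zero _).2 h1.tendsto_atTop_zero

theorem superDelta : IsSuperDeltaPoint px := by
  refine ⟨norm_px, fun W hW hxW => ?_⟩
  have h1 : Tendsto (fun n => toWeakSpace ℝ X (py n)) atTop (𝓝 (toWeakSpace ℝ X px)) := by
    rw [Pool.Agent.X203.tendsto_weak_iff]
    intro G
    have h2 : Tendsto (fun n => G px - 2 * G (pp n)) atTop (𝓝 (G px - 2 * 0)) :=
      tendsto_const_nhds.sub ((pp_weak G).const_mul 2)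
    rw [mul_zero, sub_zero] at h2
    refine h2.congr fun n => ?_
    rw [py_eq, map_sub, map_smul, smul_eq_mul]
  obtain ⟨n, hn⟩ := (h1.eventually (hW.mem_nhds hxW)).exists
  have h2 : ‖px - py n‖ = 2 := by
    apply le_antisymm
    · refine (norm_sub_le _ _).trans ?_
      linarith [norm_px_le, norm_py_le n]
    · rw [py_eq, sub_sub_cancel, norm_smul, Real.norm_eq_abs, abs_of_pos two_pos]
      linarith [one_le_norm_pp n]
  refine ⟨?_, fun c hc => ?_⟩
  · rintro t ⟨y, hy, -, rfl⟩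
    have hy' : ‖y‖ ≤ 1 := by simpa using hy
    refine (norm_sub_le _ _).trans ?_
    linarith [norm_px_le]
  · exact hc ⟨py n, by simpa using norm_py_le n, hn, h2.symm⟩

/-! ### The points `z_k` are denting -/

/-- the exposing vector of `z_k` -/
noncomputable def g (k : ℕ) : Y := ((k : ℝ) / (k + 1)) • e 0 + (1 : ℝ) • e (2 * k + 2)

theorem pz_g (k : ℕ) : pz k (g k) = 1 := by
  have hk : ((k : ℝ) + 1) ≠ 0 := by positivity
  rw [pz_apply, g, map_add, map_smul, map_smul, fl_e, fl_e]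
  simp only [Pi.add_apply, Pi.smul_apply, smul_eq_mul, vx, vq]
  rw [if_pos trivial, if_neg (by omega : ¬ (0 = 2 * k + 2)), if_neg (by omega : ¬ (2 * k + 2 = 0))]
  field_simp
  ring

/-- all other functionals of the norming set are small at `g k` -/
theorem fl_g (k : ℕ) {v : ℕ → ℝ} (hv : v ∈ V) (hne : v ≠ vx + (1 / ((k : ℝ) + 1)) • vq k) :
    |fl v (g k)| ≤ 1 - 1 / (2 * ((k : ℝ) + 1)) := by
  have hk0 : (0 : ℝ) ≤ k := Nat.cast_nonneg k
  have hk : (0 : ℝ) < (k : ℝ) + 1 := by positivity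
  have ha : (k : ℝ) / (k + 1) = 1 - 1 / (k + 1) := by field_simp; ring
  have hb : 1 / (2 * ((k : ℝ) + 1)) = (1 / (k + 1)) / 2 := by field_simp
  have hc0 : 0 < 1 / ((k : ℝ) + 1) := by positivity
  have hc1 : 1 / ((k : ℝ) + 1) ≤ 1 := by rw [div_le_one hk]; linarith
  rw [g, fl_cases hv, ha, hb]
  set c := 1 / ((k : ℝ) + 1) with hc
  rcases hv with rfl | ⟨m, rfl⟩ | ⟨j, rfl⟩ | h
  · simp only [vx]
    rw [if_pos trivial, if_neg (by omega : ¬ (2 * k + 2 = 0)), abs_le]
    constructor <;> linarith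
  · simp only [Pi.sub_apply, Pi.smul_apply, smul_eq_mul, vx, vp]
    rw [if_pos trivial, if_neg (by omega : ¬ (0 = 2 * m + 1)), if_neg (by omega : ¬ (2 * k + 2 = 0)),
      if_neg (by omega : ¬ (2 * k + 2 = 2 * m + 1)), abs_le]
    constructor <;> linarith
  · have hjk : j ≠ k := by
      rintro rfl
      exact hne rfl
    simp only [Pi.add_apply, Pi.smul_apply, smul_eq_mul, vx, vq]
    rw [if_pos trivial, if_neg (by omega : ¬ (0 = 2 * j + 2)), if_neg (by omega : ¬ (2 * k + 2 = 0)),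
      if_neg (by omega : ¬ (2 * k + 2 = 2 * j + 2)), abs_le]
    constructor <;> linarith
  · have h1 := h 0
    have h2 := h (2 * k + 2)
    have h3 : |(1 - c) * v 0| ≤ 1 / 4 := by
      rw [abs_mul, abs_of_nonneg (by linarith : (0 : ℝ) ≤ 1 - c)]
      nlinarith [abs_nonneg (v 0)]
    have h4 := (abs_add_le ((1 - c) * v 0) (1 * v (2 * k + 2))).trans
      (add_le_add h3 ((one_mul (v (2 * k + 2))).symm ▸ h2))
    refine h4.trans ?_
    linarith

theorem norm_g_le (k : ℕ) : ‖g k‖ ≤ 1 := by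
  rw [norm_le_iff]
  intro v hv
  by_cases h : v = vx + (1 / ((k : ℝ) + 1)) • vq k
  · have := pz_g k
    rw [pz_apply, ← h] at this
    rw [this]; simp
  · have h1 := fl_g k hv h
    have h2 : 0 < 1 / (2 * ((k : ℝ) + 1)) := by positivity
    linarith

/-- differentiability of the norm at `g k` -/
theorem norm_add_le' (k : ℕ) (y : Y) (hy : ‖y‖ ≤ 1) :
    ‖g k + (1 / (4 * ((k : ℝ) + 1))) • y‖ ≤ 1 + (1 / (4 * ((k : ℝ) + 1))) * pz k y := by
  have hk0 : (0 : ℝ) ≤ k := Nat.cast_nonneg k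
  set t : ℝ := 1 / (4 * ((k : ℝ) + 1)) with ht
  have ht0 : 0 < t := by positivity
  have ht1 : t ≤ 1 := by
    rw [ht, div_le_one (by positivity)]; linarith
  have htt : 1 / (2 * ((k : ℝ) + 1)) = 2 * t := by rw [ht]; field_simp; norm_num
  have hz : |pz k y| ≤ 1 := by
    have := (pz k).le_opNorm y
    rw [Real.norm_eq_abs] at this
    have h1 := norm_pz_le k
    have h2 := norm_nonneg y
    have h3 := norm_nonneg (pz k)
    nlinarith
  have hz' := abs_le.1 hz
  rw [norm_le_iff]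
  intro v hv
  rw [map_add, map_smul, smul_eq_mul]
  have hvy : |fl v y| ≤ 1 := (fl_le hv y).trans hy
  by_cases h : v = vx + (1 / ((k : ℝ) + 1)) • vq k
  · have h1 : fl v (g k) = 1 := by
      have := pz_g k
      rwa [pz_apply, ← h] at this
    have h2 : fl v y = pz k y := by rw [pz_apply, ← h]
    rw [h1, h2, abs_of_nonneg]
    nlinarith
  · have h1 := fl_g k hv h
    rw [htt] at h1
    have h2 : |t * fl v y| ≤ t := by
      rw [abs_mul, abs_of_pos ht0]; nlinarith
    have h3 := (abs_add_le (fl v (g k)) (t * fl v y)).trans (add_le_add h1 h2)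
    refine h3.trans ?_
    nlinarith

/-- evaluation at `g k` -/
noncomputable def ev (k : ℕ) : X →L[ℝ] ℝ :=
  LinearMap.mkContinuous
    { toFun := fun φ => φ (g k)
      map_add' := fun φ ψ => rfl
      map_smul' := fun r φ => rfl } 1 (by
      intro φ
      rw [one_mul]
      refine (φ.le_opNorm (g k)).trans ?_
      have := norm_g_le k
      nlinarith [norm_nonneg φ])

theorem ev_apply (k : ℕ) (φ : X) : ev k φ = φ (g k) := rfl

theorem norm_ev (k : ℕ) : ‖ev k‖ = 1 := by
  apply le_antisymm (LinearMap.mkContinuous_norm_le _ zero_le_one _)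
  calc (1 : ℝ) = ev k (pz k) := by rw [ev_apply, pz_g]
    _ ≤ ‖ev k (pz k)‖ := le_abs_self _
    _ ≤ ‖ev k‖ * ‖pz k‖ := (ev k).le_opNorm _
    _ ≤ ‖ev k‖ * 1 := by gcongr; exact norm_pz_le k
    _ = ‖ev k‖ := mul_one _

theorem close (k : ℕ) {α : ℝ} (hα : 0 < α) (φ : X) (hφ : φ ∈ slice (ev k) α) :
    ‖φ - pz k‖ ≤ (4 * ((k : ℝ) + 1)) * α := by
  obtain ⟨hφ1, hφ2⟩ := hφ
  rw [mem_closedBall, dist_zero_right] at hφ1
  rw [norm_ev, ev_apply] at hφ2
  have hk0 : (0 : ℝ) ≤ k := Nat.cast_nonneg k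
  set s : ℝ := 4 * ((k : ℝ) + 1) with hs
  have hspos : 0 < s := by positivity
  have key : ∀ y : Y, ‖y‖ ≤ 1 → φ y - pz k y ≤ s * α := by
    intro y hy
    have h1 := norm_add_le' k y hy
    have h2 : φ (g k + (1 / s) • y) ≤ ‖g k + (1 / s) • y‖ := by
      calc φ (g k + (1 / s) • y) ≤ ‖φ (g k + (1 / s) • y)‖ := le_abs_self _
        _ ≤ ‖φ‖ * ‖g k + (1 / s) • y‖ := φ.le_opNorm _
        _ ≤ 1 * ‖g k + (1 / s) • y‖ := by gcongr
        _ = _ := one_mul _
    rw [map_add, map_smul, smul_eq_mul] at h2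
    rw [← hs] at h1
    have h3 : (1 / s) * (φ y - pz k y) ≤ α := by
      rw [mul_sub]; linarith
    rw [one_div, inv_mul_le_iff₀ hspos] at h3
    exact h3
  apply ContinuousLinearMap.opNorm_le_bound _ (by positivity)
  intro y
  by_cases hy0 : y = 0
  · simp [hy0]
  have hypos : 0 < ‖y‖ := norm_pos_iff.2 hy0
  have h1 := key (‖y‖⁻¹ • y) (by
    rw [norm_smul, norm_inv, norm_norm, inv_mul_cancel₀ hypos.ne'])
  have h2 := key (-(‖y‖⁻¹ • y)) (by
    rw [norm_neg, norm_smul, norm_inv, norm_norm, inv_mul_cancel₀ hypos.ne'])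
  rw [map_neg, map_neg] at h2
  rw [map_smul, map_smul, smul_eq_mul, smul_eq_mul] at h1 h2
  rw [_root_.sub_apply, Real.norm_eq_abs, abs_le]
  have h3 : ‖y‖⁻¹ * (φ y - pz k y) ≤ s * α := by rw [mul_sub]; exact h1
  have h4 : ‖y‖⁻¹ * (pz k y - φ y) ≤ s * α := by rw [mul_sub]; linarith
  rw [inv_mul_le_iff₀ hypos] at h3 h4
  constructor <;> nlinarith

theorem denting (k : ℕ) : IsDentingPoint (pz k) := by
  refine ⟨by simpa using norm_pz_le k, fun ε hε => ?_⟩
  have hk0 : (0 : ℝ) ≤ k := Nat.cast_nonneg k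
  set s : ℝ := 4 * ((k : ℝ) + 1) with hs
  have hspos : 0 < s := by positivity
  refine ⟨ev k, ε / (4 * s), ?_, by positivity, ?_, ?_⟩
  · intro h
    have h1 : ev k (pz k) = 1 := by rw [ev_apply, pz_g]
    rw [h] at h1
    simp at h1
  · refine ⟨by simpa using norm_pz_le k, ?_⟩
    rw [norm_ev, ev_apply, pz_g]
    have : 0 < ε / (4 * s) := by positivity
    linarith
  · have hle : Metric.diam (slice (ev k) (ε / (4 * s))) ≤ ε / 2 := by
      apply Metric.diam_le_of_forall_dist_le (by positivity)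
      intro φ hφ ψ hψ
      have h1 := close k (by positivity) φ hφ
      have h2 := close k (by positivity) ψ hψ
      rw [← hs] at h1 h2
      have h3 : s * (ε / (4 * s)) = ε / 4 := by field_simp
      rw [h3] at h1 h2
      have h4 := dist_triangle_right φ ψ (pz k)
      rw [dist_eq_norm φ (pz k), dist_eq_norm ψ (pz k)] at h4
      linarith
    linarith

theorem tendsto_pz : Tendsto pz atTop (𝓝 px) := by
  rw [tendsto_iff_norm_sub_tendsto_zero]
  have h1 : Tendsto (fun k : ℕ => 4 * (1 / ((k : ℝ) + 1))) atTop (𝓝 (4 * 0)) :=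
    (tendsto_one_div_add_atTop_nhds_zero_nat (𝕜 := ℝ)).const_mul 4
  rw [mul_zero] at h1
  refine squeeze_zero (fun _ => norm_nonneg _) (fun k => ?_) h1
  apply ContinuousLinearMap.opNorm_le_bound _ (by positivity)
  intro y
  rw [_root_.sub_apply, pz_apply, px_apply, fl_add, fl_smul, add_sub_cancel_left, norm_mul,
    Real.norm_eq_abs, Real.norm_eq_abs, abs_of_pos (by positivity : (0 : ℝ) < 1 / ((k : ℝ) + 1))]
  have := four_le (vq_le k) y
  have h2 : (0 : ℝ) < 1 / ((k : ℝ) + 1) := by positivity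
  nlinarith

/-- There are a real Banach space and a super Delta-point of its unit sphere that lies in the
norm closure of the set of denting points of the unit ball. -/
theorem result : ∃ (X : Type) (_ : NormedAddCommGroup X) (_ : NormedSpace ℝ X)
    (_ : CompleteSpace X) (x : X), IsSuperDeltaPoint x ∧
      x ∈ closure {y : X | IsDentingPoint y} :=
  ⟨X, inferInstance, inferInstance, inferInstance, px, superDelta,
    mem_closure_of_tendsto tendsto_pz (Eventually.of_forall denting)⟩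

end Pool.Agent.Results.MP_a21db2_an.SuperDeltaNearDenting
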